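import Pool.Agent.R331.UL.Points

set_option autoImplicit false

namespace Pool.Agent.Results.MP_0aa2e9_nt.DimTwoThirds

open MeasureTheory Filter Topology Set
open scoped ENNReal
open Pool.Agent.R331.UL

/-- distance to the nearest integer -/
noncomputable def nint (x : ℝ) : ℝ := |x - round x|

/-- `m_Q(ξ,ζ) = min {‖qξ‖ ‖qζ‖ : 1 ≤ q ≤ Q}` (for `Q = 0` the value is `∞`). -/
noncomputable def mQ (ξ ζ : ℝ) (Q : ℕ) : ℝ≥0∞ :=
  ⨅ q ∈ Finset.Icc 1 Q, ENNReal.ofReal (nint (q * ξ) * nint (q * ζ))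

/-- `F(ξ,ζ) = limsup_Q Q m_Q(ξ,ζ)` in `[0,∞]`. -/
noncomputable def F (ξ ζ : ℝ) : ℝ≥0∞ := limsup (fun Q : ℕ => (Q : ℝ≥0∞) * mQ ξ ζ Q) atTop

/-- the uniform Littlewood exceptional set -/
def Θ : Set (EuclideanSpace ℝ (Fin 2)) := {x | 1/188 < F (x 0) (x 1)}

/-- the same set in `ℝ × ℝ` -/
def Θ' : Set (ℝ × ℝ) := {x | 1/188 < F x.1 x.2}

theorem F_large {ξ ζ : ℝ} (h : ∀ N, (ξ, ζ) ∈ Uset N) : 1/188 < F ξ ζ := by
  have h1 : ∃ᶠ Q : ℕ in atTop, ENNReal.ofReal (1/187) ≤ (Q : ℝ≥0∞) * mQ ξ ζ Q := by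
    rw [frequently_atTop]
    intro N
    obtain ⟨w, h2, hA, hN, a, hc, hx, hy⟩ := h (N + 100)
    set Q := (pr w).1 with hQ
    refine ⟨Q - 1, by omega, ?_⟩
    have hQ0 : (0:ℝ) < Q := by
      have : 0 < Q := by omega
      exact_mod_cast this
    have hQ100 : (100:ℝ) ≤ Q := by
      have : 100 ≤ Q := by omega
      exact_mod_cast this
    have h3 : ENNReal.ofReal ((19/20)^2 / (164 * (Q:ℝ))) ≤ mQ ξ ζ (Q-1) := by
      unfold mQ
      refine le_iInf₂ fun q hq => ?_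
      rw [Finset.mem_Icc] at hq
      apply ENNReal.ofReal_le_ofReal
      exact point_bound w h2 hA hc hx hy hq.1 (by omega)
    have h4 : ((Q - 1 : ℕ) : ℝ≥0∞) = ENNReal.ofReal ((Q:ℝ) - 1) := by
      rw [← ENNReal.ofReal_natCast, Nat.cast_sub (by omega)]
      simp
    rw [h4]
    refine le_trans ?_ (mul_le_mul' le_rfl h3)
    rw [← ENNReal.ofReal_mul (by linarith)]
    apply ENNReal.ofReal_le_ofReal
    rw [mul_div_assoc', le_div_iff₀ (by positivity)]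
    linarith
  have h2 : ENNReal.ofReal (1/187) ≤ F ξ ζ := le_limsup_of_frequently_le' h1
  refine lt_of_lt_of_le ?_ h2
  have : (1/188 : ℝ≥0∞) = ENNReal.ofReal (1/188) := by
    rw [ENNReal.ofReal_div_of_pos (by norm_num)]
    norm_num
  rw [this]
  exact (ENNReal.ofReal_lt_ofReal_iff (by norm_num)).mpr (by norm_num)

theorem lower : ENNReal.ofReal (2/3) ≤ dimH Θ' := by
  have main : ∀ s : ℝ, 0 < s → s < 2/3 → ENNReal.ofReal s ≤ dimH Θ' := by
    intro s hs0 hs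
    refine (dim2 hs0 (by linarith) Uset isOpen_Uset (fun N => full_U hs0 hs N)).trans (dimH_mono ?_)
    rintro ⟨ξ, ζ⟩ hx
    exact F_large hx.2
  refine le_of_forall_lt fun b hb => ?_
  obtain ⟨c, hc1, hc2⟩ := ENNReal.lt_iff_exists_nnreal_btwn.mp hb
  have hc3 : (c:ℝ) < 2/3 := by
    rw [← ENNReal.ofReal_coe_nnreal] at hc2
    exact (ENNReal.ofReal_lt_ofReal_iff_of_nonneg c.2).mp hc2
  set s : ℝ := max (c:ℝ) (1/3) with hs
  have hs0 : 0 < s := lt_of_lt_of_le (by norm_num) (le_max_right _ _)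
  have hs1 : s < 2/3 := max_lt hc3 (by norm_num)
  refine lt_of_lt_of_le hc1 (le_trans ?_ (main s hs0 hs1))
  rw [← ENNReal.ofReal_coe_nnreal]
  apply ENNReal.ofReal_le_ofReal
  exact le_max_left _ _

theorem result : 2/3 ≤ dimH Θ := by
  set e : EuclideanSpace ℝ (Fin 2) ≃L[ℝ] ℝ × ℝ :=
    (EuclideanSpace.equiv (Fin 2) ℝ).trans (ContinuousLinearEquiv.finTwoArrow ℝ ℝ) with he
  have h2 : Θ = e ⁻¹' Θ' := rfl
  rw [h2, ContinuousLinearEquiv.dimH_preimage]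
  refine le_trans (le_of_eq ?_) lower
  rw [ENNReal.ofReal_div_of_pos (by norm_num)]
  norm_num

end Pool.Agent.Results.MP_0aa2e9_nt.DimTwoThirds
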